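import Mathlib
import Pool.Agent.Lib.MP_dc7230_lc.LimCode
import Pool.Agent.Lib.MP_dc7230_lc_h77.Hull

/-!
# MP_dc7230_lc: the club argument: traces of a code at the top
-/

namespace Pool.MP_dc7230_lc

open Set FirstOrder

lemma sSup_lt_omega_two {S : Set Ordinal.{0}} (hS : Cardinal.mk S ≤ Cardinal.aleph 1)
    (hs : ∀ i ∈ S, i < Ordinal.omega 2) : sSup S < Ordinal.omega 2 := by
  refine Ordinal.sSup_lt_of_lt_cof ?_ hs
  have hreg : (Cardinal.aleph (2 : Ordinal.{0})).IsRegular := by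
    have h := Cardinal.isRegular_aleph_add_one (1 : Ordinal.{0})
    rwa [one_add_one_eq_two] at h
  rw [← Ordinal.lift_cof, hreg.cof_omega_eq, Cardinal.lift_aleph]
  refine hS.trans_lt (Cardinal.aleph_lt_aleph.2 ?_)
  have h3 : Ordinal.lift.{1, 0} (1 : Ordinal.{0}) < Ordinal.lift.{1, 0} (2 : Ordinal.{0}) :=
    Ordinal.lift_lt.2 one_lt_two
  rwa [Ordinal.lift_one] at h3

lemma mk_Iio_le_aleph_one {α : Ordinal.{0}} (h : α < Ordinal.omega 2) :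
    Cardinal.mk (Iio α) ≤ Cardinal.aleph 1 := by
  rw [Cardinal.mk_Iio_ordinal]
  have h1 : α.card < Cardinal.aleph 2 := by
    rw [← Cardinal.lt_ord, Cardinal.ord_aleph]
    exact h
  rw [← one_add_one_eq_two, ← Cardinal.succ_aleph, Order.lt_succ_iff] at h1
  have h3 := Cardinal.lift_le.{1}.2 h1
  rwa [Cardinal.lift_aleph, Ordinal.lift_one] at h3

section
variable {μ ν : Ordinal.{0}} (F : Filt μ ν) (c : Cd)

/-- the generators at `γ` -/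
def ZZ (γ : Ordinal.{0}) : Set c.pr.M.N :=
  {z | z = c.pr.a ∨ z = c.pr.o (F.m (Ordinal.omega 2)) ∨
    ∃ ξ < F.m γ, z = c.pr.o (F.e γ (Ordinal.omega 2) ξ)}

lemma mk_ZZ_le {γ : Ordinal.{0}} (hγ : γ < Ordinal.omega 2) :
    Cardinal.mk (ZZ F c γ) ≤ Cardinal.aleph 1 := by
  have h1 : ZZ F c γ ⊆ {c.pr.a} ∪ ({c.pr.o (F.m (Ordinal.omega 2))} ∪
      Set.range (fun ξ : Iio (F.m γ) => c.pr.o (F.e γ (Ordinal.omega 2) ξ.1))) := by
    rintro z (h | h | ⟨ξ, hξ, h⟩)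
    · exact Or.inl h
    · exact Or.inr (Or.inl h)
    · exact Or.inr (Or.inr ⟨⟨ξ, hξ⟩, h.symm⟩)
  have h0 : Cardinal.aleph0 ≤ Cardinal.aleph (1 : Ordinal.{1}) := Cardinal.aleph0_le_aleph 1
  have h1' : (1 : Cardinal.{1}) ≤ Cardinal.aleph 1 := Cardinal.one_le_aleph0.trans h0
  refine (Cardinal.mk_le_mk_of_subset h1).trans ((Cardinal.mk_union_le _ _).trans ?_)
  refine Cardinal.add_le_of_le h0 ?_ ((Cardinal.mk_union_le _ _).trans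
    (Cardinal.add_le_of_le h0 ?_ ?_))
  · rw [Cardinal.mk_singleton]
    exact h1'
  · rw [Cardinal.mk_singleton]
    exact h1'
  · exact Cardinal.mk_range_le.trans (mk_Iio_le_aleph_one (F.m_lt γ hγ))

lemma mk_dcl_ZZ_le {γ : Ordinal.{0}} (hγ : γ < Ordinal.omega 2) :
    Cardinal.mk (dcl c.pr.M (ZZ F c γ)) ≤ Cardinal.aleph 1 :=
  (mk_dcl_le _).trans (max_le (Cardinal.aleph0_le_aleph 1) (mk_ZZ_le F c hγ))

lemma ZZ_mono {δ γ : Ordinal.{0}} (h1 : δ ≤ γ) (h2 : γ ≤ Ordinal.omega 2) :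
    ZZ F c δ ⊆ ZZ F c γ := by
  rintro z (h | h | ⟨ξ, hξ, h⟩)
  · exact Or.inl h
  · exact Or.inr (Or.inl h)
  · refine Or.inr (Or.inr ⟨F.e δ γ ξ, F.e_lt _ _ _ h1 h2 hξ, ?_⟩)
    rw [F.e_comp _ _ _ _ h1 h2 le_rfl hξ, h]

variable {F c}

lemma o_inj_of_code (hc : IsCode F (Ordinal.omega 2) c) {ξ ζ : Ordinal.{0}}
    (hξ : ξ < F.m (Ordinal.omega 2)) (hζ : ζ < F.m (Ordinal.omega 2))
    (h : c.pr.o ξ = c.pr.o ζ) : ξ = ζ := by
  have key : ∀ ξ ζ : Ordinal.{0}, ζ < F.m (Ordinal.omega 2) → ξ < ζ →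
      c.pr.o ξ = c.pr.o ζ → False := by
    intro ξ ζ hζ h1 h2
    have h3 := hc.2.o_E ξ ζ hζ.le h1
    rw [h2] at h3
    exact hc.2.pl.wf.irrefl.irrefl _ h3
  rcases lt_trichotomy ξ ζ with h1 | h1 | h1
  · exact (key ξ ζ hζ h1 h).elim
  · exact h1
  · exact (key ζ ξ hξ h1 h.symm).elim

lemma exists_step (hc : IsCode F (Ordinal.omega 2) c) {γ : Ordinal.{0}}
    (hγ : γ < Ordinal.omega 2) : ∃ γ', γ < γ' ∧ γ' < Ordinal.omega 2 ∧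
      ∀ ζ < F.m (Ordinal.omega 2), c.pr.o ζ ∈ dcl c.pr.M (ZZ F c γ) →
        ∃ ξ < F.m γ', F.e γ' (Ordinal.omega 2) ξ = ζ := by
  have hlim : Order.IsSuccLimit (Ordinal.omega (2 : Ordinal.{0})) := Cardinal.isSuccLimit_omega 2
  have hcov : ∀ ζ : Ordinal.{0}, ∃ δ < Ordinal.omega 2, ζ < F.m (Ordinal.omega 2) →
      ∃ ξ < F.m δ, F.e δ (Ordinal.omega 2) ξ = ζ := by
    intro ζ
    by_cases h : ζ < F.m (Ordinal.omega 2)
    · obtain ⟨δ, hδ, h1⟩ := F.e_cov (Ordinal.omega 2) hlim.bot_lt (fun δ hδ =>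
        ⟨Order.succ δ, hlim.succ_lt hδ, Order.lt_succ δ⟩) le_rfl ζ h
      exact ⟨δ, hδ, fun _ => h1⟩
    · exact ⟨0, hlim.bot_lt, fun h1 => absurd h1 h⟩
  choose D hD hD' using hcov
  let A : Set Ordinal.{0} := {ζ | ζ < F.m (Ordinal.omega 2) ∧
    c.pr.o ζ ∈ dcl c.pr.M (ZZ F c γ)}
  have hA : Cardinal.mk A ≤ Cardinal.aleph 1 := by
    refine le_trans ?_ (mk_dcl_ZZ_le F c hγ)
    refine Cardinal.mk_le_of_injective (f := fun ζ : A => (⟨c.pr.o ζ.1, ζ.2.2⟩ :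
      dcl c.pr.M (ZZ F c γ))) ?_
    intro x y hxy
    exact Subtype.ext (o_inj_of_code hc x.2.1 y.2.1 (congrArg Subtype.val hxy))
  have hS : sSup (D '' A) < Ordinal.omega 2 := by
    refine sSup_lt_omega_two (Cardinal.mk_image_le.trans hA) ?_
    rintro _ ⟨ζ, _, rfl⟩
    exact hD ζ
  have hbdd : BddAbove (D '' A) := by
    refine ⟨Ordinal.omega 2, ?_⟩
    rintro _ ⟨ζ, _, rfl⟩
    exact (hD ζ).le
  refine ⟨max (Order.succ γ) (sSup (D '' A)), (Order.lt_succ γ).trans_le (le_max_left _ _),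
    max_lt (hlim.succ_lt hγ) hS, fun ζ hζ h => ?_⟩
  obtain ⟨ξ, hξ, h1⟩ := hD' ζ hζ
  have h2 : D ζ ≤ max (Order.succ γ) (sSup (D '' A)) :=
    (le_csSup hbdd ⟨ζ, ⟨hζ, h⟩, rfl⟩).trans (le_max_right _ _)
  have h3 : max (Order.succ γ) (sSup (D '' A)) < Ordinal.omega 2 := max_lt (hlim.succ_lt hγ) hS
  refine ⟨F.e (D ζ) _ ξ, F.e_lt _ _ _ h2 h3.le hξ, ?_⟩
  rw [F.e_comp _ _ _ _ h2 h3.le le_rfl hξ, h1]

lemma exists_closed (hc : IsCode F (Ordinal.omega 2) c) {γ₀ : Ordinal.{0}}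
    (h₀ : γ₀ < Ordinal.omega 2) : ∃ γ, γ₀ ≤ γ ∧ γ < Ordinal.omega 2 ∧
      ∀ ζ < F.m (Ordinal.omega 2), c.pr.o ζ ∈ dcl c.pr.M (ZZ F c γ) →
        ∃ ξ < F.m γ, F.e γ (Ordinal.omega 2) ξ = ζ := by
  have hstep : ∀ γ : Ordinal.{0}, ∃ γ', γ < Ordinal.omega 2 → γ < γ' ∧ γ' < Ordinal.omega 2 ∧
      ∀ ζ < F.m (Ordinal.omega 2), c.pr.o ζ ∈ dcl c.pr.M (ZZ F c γ) →
        ∃ ξ < F.m γ', F.e γ' (Ordinal.omega 2) ξ = ζ := by
    intro γ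
    by_cases h : γ < Ordinal.omega 2
    · obtain ⟨γ', h1⟩ := exists_step hc h
      exact ⟨γ', fun _ => h1⟩
    · exact ⟨0, fun h1 => absurd h1 h⟩
  choose g hg using hstep
  let s : ℕ → Ordinal.{0} := fun n => Nat.rec γ₀ (fun _ x => g x) n
  have hs0 : s 0 = γ₀ := rfl
  have hsS : ∀ n, s (n + 1) = g (s n) := fun n => rfl
  have hsκ : ∀ n, s n < Ordinal.omega 2 := by
    intro n
    induction n with
    | zero => exact h₀
    | succ n ih =>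
      rw [hsS]
      exact (hg _ ih).2.1
  have hslt : ∀ n, s n < s (n + 1) := fun n => by
    rw [hsS]
    exact (hg _ (hsκ n)).1
  have hsm : StrictMono s := strictMono_nat_of_lt_succ hslt
  have hbdd : BddAbove (range s) := ⟨Ordinal.omega 2, by
    rintro _ ⟨n, rfl⟩
    exact (hsκ n).le⟩
  let γ := sSup (range s)
  have hle : ∀ n, s n ≤ γ := fun n => le_csSup hbdd ⟨n, rfl⟩
  have hlt : ∀ n, s n < γ := fun n => (hslt n).trans_le (hle (n + 1))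
  have hex : ∀ δ < γ, ∃ n, δ < s n := by
    intro δ hδ
    by_contra hcon
    push Not at hcon
    exact absurd hδ (not_lt.2 (csSup_le (range_nonempty s) (by
      rintro _ ⟨n, rfl⟩
      exact hcon n)))
  have hγκ : γ < Ordinal.omega 2 := by
    refine sSup_lt_omega_two ?_ (by
      rintro _ ⟨n, rfl⟩
      exact hsκ n)
    have h1 := Cardinal.mk_range_le_lift (f := s)
    have h2 : Cardinal.mk (range s) ≤ Cardinal.aleph0 := by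
      have : Countable (range s) := (countable_range s).to_subtype
      exact Cardinal.mk_le_aleph0
    exact h2.trans (Cardinal.aleph0_le_aleph 1)
  refine ⟨γ, hle 0, hγκ, fun ζ hζ h => ?_⟩
  -- the parameters lie in some stage
  have hZ : ∀ z ∈ ZZ F c γ, ∃ n, z ∈ ZZ F c (s n) := by
    rintro z (h | h | ⟨ξ, hξ, h⟩)
    · exact ⟨0, Or.inl h⟩
    · exact ⟨0, Or.inr (Or.inl h)⟩
    · obtain ⟨δ, hδ, ξ', hξ', h1⟩ := F.e_cov γ (bot_le.trans_lt (hlt 0)) (fun δ hδ => by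
        obtain ⟨n, hn⟩ := hex δ hδ
        exact ⟨s n, hlt n, hn⟩) hγκ.le ξ hξ
      obtain ⟨n, hn⟩ := hex δ hδ
      refine ⟨n, ZZ_mono F c hn.le (hsκ n).le (Or.inr (Or.inr ⟨ξ', hξ', ?_⟩))⟩
      rw [h, ← h1, F.e_comp _ _ _ _ hδ.le hγκ.le le_rfl hξ']
  obtain ⟨n, φ, z, hz, hφ⟩ := h
  choose N hN using fun i => hZ _ (hz i)
  obtain ⟨K, hK⟩ : ∃ K, ∀ i, N i ≤ K := ⟨Finset.univ.sup N, fun i =>
    Finset.le_sup (Finset.mem_univ i)⟩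
  have h1 : c.pr.o ζ ∈ dcl c.pr.M (ZZ F c (s K)) :=
    ⟨n, φ, z, fun i => ZZ_mono F c (hsm.monotone (hK i)) (hsκ K).le (hN i), hφ⟩
  obtain ⟨ξ, hξ, h2⟩ := (hg _ (hsκ K)).2.2 ζ hζ h1
  rw [← hsS] at hξ h2
  refine ⟨F.e (s (K + 1)) γ ξ, F.e_lt _ _ _ (hle (K + 1)) hγκ.le hξ, ?_⟩
  rw [F.e_comp _ _ _ _ (hle (K + 1)) hγκ.le le_rfl hξ, h2]

end

theorem exists_trace {μ ν : Ordinal.{0}} (F : Filt μ ν) {c : Cd}
    (hc : IsCode F (Ordinal.omega 2) c) {γ₀ : Ordinal.{0}} (h₀ : γ₀ < Ordinal.omega 2) :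
    ∃ γ, γ₀ ≤ γ ∧ γ < Ordinal.omega 2 ∧ ∃ c' : Cd, IsCode F γ c' ∧
      ∃ σ, Conn F γ (Ordinal.omega 2) c'.pr c.pr σ := by
  classical
  obtain ⟨γ, h1, h2, h3⟩ := exists_closed hc h₀
  refine ⟨γ, h1, h2, ?_⟩
  let Z := ZZ F c γ
  have hsub : ∀ z ∈ Z, z ∈ dcl c.pr.M Z := fun z hz => subset_dcl hz
  have hel : El (c.pr.M.sub (dcl c.pr.M Z)) c.pr.M (fun x => x.1) := El_dcl hc.2.pl Z
  let aP : (c.pr.M.sub (dcl c.pr.M Z)).N := ⟨c.pr.a, hsub _ (Or.inl rfl)⟩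
  let oP : Ordinal.{0} → (c.pr.M.sub (dcl c.pr.M Z)).N := fun ξ =>
    if h : ξ < F.m γ then ⟨c.pr.o (F.e γ (Ordinal.omega 2) ξ), hsub _ (Or.inr (Or.inr ⟨ξ, h, rfl⟩))⟩
    else ⟨c.pr.o (F.m (Ordinal.omega 2)), hsub _ (Or.inr (Or.inl rfl))⟩
  have ho1 : ∀ ξ, ξ < F.m γ → (oP ξ).1 = c.pr.o (F.e γ (Ordinal.omega 2) ξ) := by
    intro ξ h
    simp only [oP]
    rw [dif_pos h]
  have ho2 : (oP (F.m γ)).1 = c.pr.o (F.m (Ordinal.omega 2)) := by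
    simp only [oP]
    rw [dif_neg (lt_irrefl _)]
  let P : Pr := ⟨c.pr.M.sub (dcl c.pr.M Z), oP, aP⟩
  have hconn : Conn F γ (Ordinal.omega 2) P c.pr (fun x => x.1) := ⟨hel, rfl, ho1, ho2⟩
  have hpres : IsPres F γ P := by
    refine ⟨PL.of_el hel hc.2.pl, ?_, ?_, ?_, ?_, ?_⟩
    · intro ξ ζ hζ hξ
      show c.pr.M.E (oP ξ).1 (oP ζ).1
      rw [ho1 ξ (hξ.trans_le hζ)]
      rcases hζ.eq_or_lt with h | h
      · rw [h, ho2]
        exact hc.2.o_E _ _ le_rfl (F.e_lt _ _ _ h2.le le_rfl (h ▸ hξ))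
      · rw [ho1 ζ h]
        exact hc.2.o_E _ _ (F.e_lt _ _ _ h2.le le_rfl h).le (F.e_mono _ _ _ _ h2.le le_rfl hξ h)
    · intro ζ hζ x hx
      have hx' : c.pr.M.E x.1 (oP ζ).1 := hx
      rcases hζ.eq_or_lt with h | h
      · rw [h, ho2] at hx'
        obtain ⟨ξ', hξ', h4⟩ := hc.2.o_down _ le_rfl _ hx'
        obtain ⟨ξ, hξ, h5⟩ := h3 ξ' hξ' (by rw [h4]; exact x.2)
        refine ⟨ξ, h ▸ hξ, Subtype.ext ?_⟩
        show (oP ξ).1 = x.1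
        rw [ho1 ξ hξ, h5, h4]
      · rw [ho1 ζ h] at hx'
        have h6 := F.e_lt _ _ _ h2.le le_rfl h
        obtain ⟨ξ', hξ', h4⟩ := hc.2.o_down _ h6.le _ hx'
        obtain ⟨ξ, hξ, h5⟩ := h3 ξ' (hξ'.trans h6) (by rw [h4]; exact x.2)
        refine ⟨ξ, ?_, Subtype.ext ?_⟩
        · rw [← F.e_lt_iff h2.le le_rfl hξ h, h5]
          exact hξ'
        · show (oP ξ).1 = x.1
          rw [ho1 ξ hξ, h5, h4]
    · intro x
      refine dcl_of_map hel (Z' := Z) x.2 ?_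
      rintro z (h | h | ⟨ξ, hξ, h⟩)
      · exact ⟨aP, Or.inl rfl, h.symm⟩
      · exact ⟨oP (F.m γ), Or.inr ⟨_, le_rfl, rfl⟩, ho2.trans h.symm⟩
      · exact ⟨oP ξ, Or.inr ⟨ξ, hξ.le, rfl⟩, (ho1 ξ hξ).trans h.symm⟩
    · have h4 := F.n_lt γ h2.le
      rw [← hel.cI]
      show c.pr.M.cI (oP (F.m γ)).1 (oP (F.n γ)).1
      rw [ho2, ho1 _ h4, F.e_n _ _ h2.le le_rfl]
      exact hc.2.cI
    · have h4 := F.n_lt γ h2.le
      rw [← hel.cII]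
      show c.pr.M.cII (oP (F.n γ)).1
      rw [ho1 _ h4, F.e_n _ _ h2.le le_rfl]
      exact hc.2.cII
  have hsm0 : Small.{0} c.pr.M.N := inferInstanceAs (Small.{0} (LM c.β).N)
  have hsmall : Small.{0} P.M.N := by
    show Small.{0} (dcl c.pr.M Z)
    infer_instance
  obtain ⟨c', hc', e, he, hea, heo⟩ := exists_code h2.le hpres
  refine ⟨c', hc', (fun x => x.1) ∘ e.symm, Conn.trans le_rfl h2.le le_rfl ?_ hconn⟩
  refine Conn.of_iso h2.le (El.of_comp he ?_) ?_ ?_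
  · have : (e ∘ e.symm : c'.pr.M.N → c'.pr.M.N) = fun x => x := funext fun x => e.apply_symm_apply x
    rw [this]
    exact El.id
  · rw [← hea, e.symm_apply_apply]
  · intro ξ hξ
    rw [← heo ξ hξ, e.symm_apply_apply]

end Pool.MP_dc7230_lc
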